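import Mathlib

/-!
# Graphs whose clique graph is an odd cycle and whose domatic number is below the clique order

For every odd `n ≥ 5` there is a graph whose clique graph is the cycle `C_n`, all of whose maximal
cliques have the same order `c`, and whose domatic number is smaller than `c`.
-/

set_option autoImplicit false

namespace Pool.Agent.Results.MP_72856e_co.OddCycles

/-- `s` is the vertex set of a maximal complete subgraph of `G`. -/
def IsMaxClique {V : Type*} (G : SimpleGraph V) (s : Finset V) : Prop :=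
  G.IsClique (s : Set V) ∧ ∀ t : Finset V, G.IsClique (t : Set V) → s ⊆ t → s = t

/-- The clique graph: its vertices are the maximal cliques, distinct ones being adjacent when
they share a vertex. -/
def cliqueGraph {V : Type*} (G : SimpleGraph V) :
    SimpleGraph {s : Finset V // IsMaxClique G s} where
  Adj s t := s ≠ t ∧ ∃ v, v ∈ s.1 ∧ v ∈ t.1
  symm := ⟨fun _ _ h => ⟨h.1.symm, h.2.imp fun _ hv => ⟨hv.2, hv.1⟩⟩⟩
  loopless := ⟨fun _ h => h.1 rfl⟩

/-- The least order of a maximal clique. -/
noncomputable def minCliqueOrder {V : Type*} (G : SimpleGraph V) : ℕ :=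
  sInf {c | ∃ s : Finset V, IsMaxClique G s ∧ s.card = c}

/-- `D` is a dominating set of `G`: every vertex outside `D` has a neighbour in `D`. -/
def IsDominating {V : Type*} (G : SimpleGraph V) (D : Set V) : Prop :=
  ∀ v, v ∉ D → ∃ w ∈ D, G.Adj v w

/-- The domatic number: the largest `k` such that the vertex set has a partition into `k`
dominating sets (the colour classes of a function to `Fin k`). -/
noncomputable def domaticNum {V : Type*} (G : SimpleGraph V) : ℕ :=
  sSup {k | ∃ f : V → Fin k, ∀ j, IsDominating G {v | f v = j}}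

variable (m : ℕ)

/-- The vertices: for each `i` modulo `2m+5` one private vertex `(i, none)` and `m+3` shared
vertices `(i, some x)`. -/
abbrev Vtx : Type := Fin (2 * m + 5) × Option (Fin (m + 3))

/-- The vertex `v` belongs to the clique number `q`: the private vertex of index `q` and the
shared vertices of indices `q` and `q - 1`. -/
def inQ (v : Vtx m) (q : Fin (2 * m + 5)) : Prop :=
  v.1 = q ∨ (v.2 ≠ none ∧ v.1 + 1 = q)

instance (v : Vtx m) (q : Fin (2 * m + 5)) : Decidable (inQ m v q) := by
  unfold inQ; infer_instance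

/-- The graph: distinct vertices are adjacent when they lie in a common clique. -/
def graph : SimpleGraph (Vtx m) where
  Adj u v := u ≠ v ∧ ∃ q, inQ m u q ∧ inQ m v q
  symm := ⟨fun _ _ h => ⟨h.1.symm, h.2.imp fun _ hv => ⟨hv.2, hv.1⟩⟩⟩
  loopless := ⟨fun _ h => h.1 rfl⟩

/-- The clique number `q` as a finset. -/
def Q (q : Fin (2 * m + 5)) : Finset (Vtx m) := Finset.univ.filter (fun v => inQ m v q)

lemma mem_Q {q : Fin (2 * m + 5)} {v : Vtx m} : v ∈ Q m q ↔ inQ m v q := by
  simp [Q]

lemma add_ne (c : ℕ) (hc : 0 < c) (hc' : c < 2 * m + 5) (i : Fin (2 * m + 5)) :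
    i + Fin.ofNat (2 * m + 5) c ≠ i := by
  intro h
  have h1 : Fin.ofNat (2 * m + 5) c = 0 := by simpa using h
  have := congrArg Fin.val h1
  simp only [Fin.ofNat, Fin.val_zero, Nat.mod_eq_of_lt hc'] at this
  omega

lemma add1_ne (i : Fin (2 * m + 5)) : i + 1 ≠ i := add_ne m 1 (by omega) (by omega) i

lemma add2_ne (i : Fin (2 * m + 5)) : i + 1 + 1 ≠ i := by
  have := add_ne m 2 (by omega) (by omega) i
  have h2 : Fin.ofNat (2 * m + 5) 2 = 1 + 1 := by
    apply Fin.ext
    simp [Fin.ofNat, Fin.val_add]
  rw [h2, ← add_assoc] at this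
  exact this

lemma add3_ne (i : Fin (2 * m + 5)) : i + 1 + 1 + 1 ≠ i := by
  have := add_ne m 3 (by omega) (by omega) i
  have h2 : Fin.ofNat (2 * m + 5) 3 = 1 + 1 + 1 := by
    apply Fin.ext
    simp [Fin.ofNat, Fin.val_add]
  rw [h2, ← add_assoc, ← add_assoc] at this
  exact this

lemma Q_clique (q : Fin (2 * m + 5)) : (graph m).IsClique (Q m q : Set (Vtx m)) := by
  intro u hu v hv huv
  exact ⟨huv, q, (mem_Q m).1 hu, (mem_Q m).1 hv⟩

lemma priv_mem (q : Fin (2 * m + 5)) : ((q, none) : Vtx m) ∈ Q m q := by
  rw [mem_Q]; left; rfl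

lemma priv_inQ {q q' : Fin (2 * m + 5)} (h : inQ m (q, none) q') : q = q' := by
  rcases h with h | h
  · exact h
  · exact absurd rfl h.1

/-- Every clique lies in one of the sets `Q`. -/
lemma clique_sub (s : Finset (Vtx m)) (hs : (graph m).IsClique (s : Set (Vtx m))) :
    ∃ q, s ⊆ Q m q := by
  by_cases hA : ∃ q, ((q, none) : Vtx m) ∈ s
  · obtain ⟨q, hq⟩ := hA
    refine ⟨q, fun v hv => ?_⟩
    by_cases hvq : v = (q, none)
    · rw [hvq]; exact priv_mem m q
    · obtain ⟨_, q', h1, h2⟩ := hs hv hq hvq
      rw [mem_Q, priv_inQ m h2]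
      exact h1
  · push Not at hA
    rcases s.eq_empty_or_nonempty with rfl | ⟨⟨i, x⟩, hi⟩
    · exact ⟨0, by simp⟩
    · have hx : x ≠ none := by rintro rfl; exact hA i hi
      -- every other vertex of `s` has index `i`, `i + 1` or `i - 1`
      have key : ∀ j y, (j, y) ∈ s → y ≠ none ∧ (j = i ∨ j = i + 1 ∨ j + 1 = i) := by
        intro j y hj
        have hy : y ≠ none := by rintro rfl; exact hA j hj
        refine ⟨hy, ?_⟩
        by_cases hji : (j, y) = ((i, x) : Vtx m)
        · left; exact congrArg Prod.fst hji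
        · obtain ⟨_, q', h1, h2⟩ := hs hj hi hji
          rcases h1 with h1 | ⟨_, h1⟩ <;> rcases h2 with h2 | ⟨_, h2⟩ <;> simp only at h1 h2
          · left; rw [h1, h2]
          · right; left; rw [h1, h2]
          · right; right; rw [h1, h2]
          · left
            exact add_right_cancel (h1.trans h2.symm)
      by_cases hB : ∃ y, (i + 1, y) ∈ s
      · obtain ⟨y, hy⟩ := hB
        refine ⟨i + 1, ?_⟩
        rintro ⟨j, z⟩ hj
        rw [mem_Q]
        obtain ⟨hz, hj'⟩ := key j z hj
        rcases hj' with h | h | h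
        · right; exact ⟨hz, by simp only; rw [h]⟩
        · left; exact h
        · exfalso
          have hne : ((j, z) : Vtx m) ≠ (i + 1, y) := by
            intro h'
            have h3 : j = i + 1 := congrArg Prod.fst h'
            rw [h3] at h
            exact add2_ne m i h
          obtain ⟨_, q', h1, h2⟩ := hs hj hy hne
          rcases h1 with h1 | ⟨_, h1⟩ <;> rcases h2 with h2 | ⟨_, h2⟩ <;> simp only at h1 h2
          · have h3 : j = i + 1 := h1.trans h2.symm
            rw [h3] at h
            exact add2_ne m i h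
          · have h3 : j = i + 1 + 1 := h1.trans h2.symm
            rw [h3] at h
            exact add3_ne m i h
          · have h3 : j + 1 = i + 1 := h1.trans h2.symm
            rw [h] at h3
            exact add1_ne m i h3.symm
          · have h3 : j + 1 = i + 1 + 1 := h1.trans h2.symm
            rw [h] at h3
            exact add2_ne m i h3.symm
      · push Not at hB
        refine ⟨i, ?_⟩
        rintro ⟨j, z⟩ hj
        rw [mem_Q]
        obtain ⟨hz, hj'⟩ := key j z hj
        rcases hj' with h | h | h
        · left; exact h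
        · exact absurd (h ▸ hj) (hB z)
        · right; exact ⟨hz, h⟩

lemma Q_max (q : Fin (2 * m + 5)) : IsMaxClique (graph m) (Q m q) := by
  refine ⟨Q_clique m q, fun t ht hqt => ?_⟩
  obtain ⟨q', hq'⟩ := clique_sub m t ht
  have h1 : inQ m (q, none) q' := (mem_Q m).1 (hq' (hqt (priv_mem m q)))
  have h2 := priv_inQ m h1
  subst h2
  exact Finset.Subset.antisymm hqt hq'

lemma max_eq (s : Finset (Vtx m)) (hs : IsMaxClique (graph m) s) : ∃ q, Q m q = s := by
  obtain ⟨q, hq⟩ := clique_sub m s hs.1
  exact ⟨q, (hs.2 _ (Q_clique m q) hq).symm⟩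

lemma Q_inj : Function.Injective (Q m) := by
  intro q q' h
  have h1 : inQ m (q, none) q' := by
    rw [← mem_Q, ← h]; exact priv_mem m q
  exact priv_inQ m h1

/-- The clique graph is the cycle of length `2m+5`. -/
noncomputable def cliqueGraphIso :
    SimpleGraph.cycleGraph (2 * m + 5) ≃g cliqueGraph (graph m) where
  toEquiv := Equiv.ofBijective (fun q => ⟨Q m q, Q_max m q⟩) (by
    constructor
    · intro q q' h
      exact Q_inj m (congrArg Subtype.val h)
    · rintro ⟨s, hs⟩
      obtain ⟨q, hq⟩ := max_eq m s hs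
      exact ⟨q, Subtype.ext hq⟩)
  map_rel_iff' := by
    intro q q'
    show (cliqueGraph (graph m)).Adj ⟨Q m q, Q_max m q⟩ ⟨Q m q', Q_max m q'⟩ ↔
      (SimpleGraph.cycleGraph (2 * m + 3 + 2)).Adj q q'
    rw [SimpleGraph.cycleGraph_adj]
    constructor
    · rintro ⟨hne, ⟨i, x⟩, h1, h2⟩
      have hqq : q ≠ q' := by rintro rfl; exact hne rfl
      replace h1 := (mem_Q m).1 h1
      replace h2 := (mem_Q m).1 h2
      rcases h1 with h1 | ⟨_, h1⟩ <;> rcases h2 with h2 | ⟨_, h2⟩ <;> simp only at h1 h2
      · exact absurd (h1.symm.trans h2) hqq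
      · right; rw [← h2, ← h1]; exact add_sub_cancel_left i 1
      · left; rw [← h2, ← h1]; exact add_sub_cancel_left i 1
      · exact absurd (h1.symm.trans h2) hqq
    · intro h
      have hne1 := add1_ne m
      rcases h with h | h
      · have h' : q = q' + 1 := by
          have := sub_eq_iff_eq_add.1 h
          rw [this]; exact add_comm _ _
        subst h'
        refine ⟨fun h => hne1 q' (Q_inj m (congrArg Subtype.val h)), (q', some 0), ?_, ?_⟩
        · exact (mem_Q m).2 (Or.inr ⟨by simp, rfl⟩)
        · exact (mem_Q m).2 (Or.inl rfl)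
      · have h' : q' = q + 1 := by
          have := sub_eq_iff_eq_add.1 h
          rw [this]; exact add_comm _ _
        subst h'
        refine ⟨fun h => hne1 q (Q_inj m (congrArg Subtype.val h)).symm, (q, some 0), ?_, ?_⟩
        · exact (mem_Q m).2 (Or.inl rfl)
        · exact (mem_Q m).2 (Or.inr ⟨by simp, rfl⟩)

lemma Q_card (q : Fin (2 * m + 5)) : (Q m q).card = 2 * m + 7 := by
  classical
  have hsub : Q m q = (Finset.univ.image (fun x : Option (Fin (m + 3)) => ((q, x) : Vtx m))) ∪
      (Finset.univ.image (fun x : Fin (m + 3) => ((q - 1, some x) : Vtx m))) := by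
    ext ⟨i, x⟩
    simp only [mem_Q, inQ, Finset.mem_union, Finset.mem_image, Finset.mem_univ, true_and,
      Prod.mk.injEq]
    constructor
    · rintro (h | ⟨h1, h2⟩)
      · left; exact ⟨x, h.symm, rfl⟩
      · right
        obtain ⟨y, hy⟩ := Option.ne_none_iff_exists.1 h1
        exact ⟨y, sub_eq_of_eq_add h2.symm, hy⟩
    · rintro (⟨y, h1, h2⟩ | ⟨y, h1, h2⟩)
      · left; exact h1.symm
      · right
        refine ⟨by rw [← h2]; simp, ?_⟩
        rw [← h1]; exact sub_add_cancel q 1
  rw [hsub, Finset.card_union_of_disjoint, Finset.card_image_of_injective,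
    Finset.card_image_of_injective]
  · simp; omega
  · intro x y h
    simpa using h
  · intro x y h
    simpa using h
  · rw [Finset.disjoint_left]
    rintro ⟨i, x⟩ h1 h2
    simp only [Finset.mem_image, Finset.mem_univ, true_and, Prod.mk.injEq] at h1 h2
    obtain ⟨_, h1, _⟩ := h1
    obtain ⟨_, h2, _⟩ := h2
    have h3 : q - 1 + 1 = q := sub_add_cancel q 1
    rw [h2, ← h1] at h3
    exact add1_ne m q h3

lemma minCliqueOrder_eq : minCliqueOrder (graph m) = 2 * m + 7 := by
  unfold minCliqueOrder
  have : {c | ∃ s : Finset (Vtx m), IsMaxClique (graph m) s ∧ s.card = c} = {2 * m + 7} := by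
    ext c
    simp only [Set.mem_ofPred_eq, Set.mem_singleton_iff]
    constructor
    · rintro ⟨s, hs, rfl⟩
      obtain ⟨q, rfl⟩ := max_eq m s hs
      exact Q_card m q
    · rintro rfl
      exact ⟨Q m 0, Q_max m 0, Q_card m 0⟩
  rw [this]
  exact csInf_singleton _

/-- No partition into `2m+7` or more dominating sets. -/
lemma domatic_lt {k : ℕ} (f : Vtx m → Fin k)
    (hf : ∀ j, IsDominating (graph m) {v | f v = j}) : k < 2 * m + 7 := by
  classical
  by_contra hk
  push Not at hk
  -- `f` is onto on each `Q q`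
  have hsurj : ∀ q, ∀ j, ∃ v ∈ Q m q, f v = j := by
    intro q j
    by_cases h : f (q, none) = j
    · exact ⟨_, priv_mem m q, h⟩
    · obtain ⟨w, hw, _, q', h1, h2⟩ := hf j (q, none) h
      have := priv_inQ m h1
      subst this
      exact ⟨w, (mem_Q m).2 h2, hw⟩
  have himg : ∀ q, (Q m q).image f = Finset.univ := by
    intro q
    ext j
    simp only [Finset.mem_image, Finset.mem_univ, iff_true]
    exact hsurj q j
  have hk' : k = 2 * m + 7 := by
    have h1 : ((Q m 0).image f).card ≤ (Q m 0).card := Finset.card_image_le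
    rw [himg, Q_card, Finset.card_univ, Fintype.card_fin] at h1
    omega
  have hinj : ∀ q, Set.InjOn f (Q m q : Set (Vtx m)) := by
    intro q
    rw [← Finset.card_image_iff, himg, Q_card, Finset.card_univ, Fintype.card_fin, hk']
  -- the shared vertices of colour `j`
  let T : Fin k → Finset (Fin (2 * m + 5) × Fin (m + 3)) :=
    fun j => Finset.univ.filter (fun p => f (p.1, some p.2) = j)
  have hT : ∀ j, 2 * (T j).card ≤ 2 * m + 5 := by
    intro j
    have hi1 : Set.InjOn Prod.fst (T j : Set (Fin (2 * m + 5) × Fin (m + 3))) := by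
      rintro ⟨i, x⟩ hx ⟨i', y⟩ hy h
      simp only at h
      subst h
      have hx' : f (i, some x) = j := by simpa [T] using hx
      have hy' : f (i, some y) = j := by simpa [T] using hy
      have := hinj i (Finset.mem_coe.2 ((mem_Q m).2 (Or.inl rfl)))
        (Finset.mem_coe.2 ((mem_Q m).2 (Or.inl rfl))) (hx'.trans hy'.symm)
      simp only [Prod.mk.injEq, Option.some.injEq, true_and] at this
      rw [this]
    let I := (T j).image Prod.fst
    have hI : I.card = (T j).card := Finset.card_image_iff.2 hi1
    have hI2 : (I.image (fun i => i + 1)).card = I.card :=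
      Finset.card_image_of_injective _ (add_left_injective 1)
    have hdisj : Disjoint I (I.image (fun i => i + 1)) := by
      rw [Finset.disjoint_left]
      intro i hi hi'
      obtain ⟨i0, hi0, hi0'⟩ := Finset.mem_image.1 hi'
      obtain ⟨⟨a, x⟩, hax, ha⟩ := Finset.mem_image.1 hi
      obtain ⟨⟨b, y⟩, hby, hb⟩ := Finset.mem_image.1 hi0
      simp only at ha hb hi0'
      have hx' : f (a, some x) = j := by simpa [T] using hax
      have hy' : f (b, some y) = j := by simpa [T] using hby
      have hab : b + 1 = a := by rw [hb, ha]; exact hi0'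
      have := hinj a (Finset.mem_coe.2 ((mem_Q m).2 (Or.inl rfl)))
        (Finset.mem_coe.2 ((mem_Q m).2 (Or.inr ⟨by simp, hab⟩))) (hx'.trans hy'.symm)
      have h3 : a = b := congrArg Prod.fst this
      rw [h3] at hab
      exact add1_ne m b hab
    have h4 : (I ∪ I.image (fun i => i + 1)).card ≤ 2 * m + 5 := by
      have := Finset.card_le_univ (I ∪ I.image (fun i => i + 1))
      simpa using this
    rw [Finset.card_union_of_disjoint hdisj, hI2, hI] at h4
    omega
  have hsum : ∑ j, (T j).card = (2 * m + 5) * (m + 3) := by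
    have h5 := Finset.card_eq_sum_card_fiberwise
      (f := fun p : Fin (2 * m + 5) × Fin (m + 3) => f (p.1, some p.2))
      (s := Finset.univ) (t := Finset.univ) (by intro x _; simp)
    rw [Finset.card_univ, Fintype.card_prod, Fintype.card_fin, Fintype.card_fin] at h5
    exact h5.symm
  have hle : ∑ j, (T j).card ≤ ∑ _j : Fin k, (m + 2) := by
    apply Finset.sum_le_sum
    intro j _
    have := hT j
    omega
  rw [hsum, Finset.sum_const, Finset.card_univ, Fintype.card_fin, smul_eq_mul, hk'] at hle
  nlinarith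

lemma domaticNum_lt : domaticNum (graph m) < 2 * m + 7 := by
  unfold domaticNum
  have hne : {k | ∃ f : Vtx m → Fin k, ∀ j, IsDominating (graph m) {v | f v = j}}.Nonempty := by
    refine ⟨1, fun _ => 0, fun j v hv => ?_⟩
    exact absurd (Subsingleton.elim _ _) hv
  have hb : BddAbove {k | ∃ f : Vtx m → Fin k, ∀ j, IsDominating (graph m) {v | f v = j}} :=
    ⟨2 * m + 7, fun k hk => by
      obtain ⟨f, hf⟩ := hk
      exact (domatic_lt m f hf).le⟩
  obtain ⟨f, hf⟩ := Nat.sSup_mem hne hb
  exact domatic_lt m f hf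

/-- For every odd `n ≥ 5` there is a finite graph `G` whose clique graph is isomorphic to the
cycle of length `n`, all of whose maximal cliques have exactly `n + 2` vertices, and whose
domatic number is smaller than the least order of a maximal clique. -/
theorem result : ∀ n : ℕ, Odd n → 5 ≤ n →
    ∃ (V : Type) (_ : Fintype V) (G : SimpleGraph V),
      Nonempty (SimpleGraph.cycleGraph n ≃g cliqueGraph G) ∧
      (∀ s, IsMaxClique G s → s.card = n + 2) ∧
      domaticNum G < minCliqueOrder G := by
  intro n hn h5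
  obtain ⟨m', rfl⟩ := hn
  obtain ⟨m, rfl⟩ : ∃ m, m' = m + 2 := ⟨m' - 2, by omega⟩
  refine ⟨Vtx m, inferInstance, graph m, ?_, ?_, ?_⟩
  · exact ⟨cliqueGraphIso m⟩
  · intro s hs
    obtain ⟨q, rfl⟩ := max_eq m s hs
    rw [Q_card]; ring
  · rw [minCliqueOrder_eq]
    exact domaticNum_lt m

end Pool.Agent.Results.MP_72856e_co.OddCycles
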